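import Mathlib

/-!
# The Lu-Wenzel / Ge-Li-Lu-Zhou commutator inequality: definitions and statements of the parts

All statements `S_*` are Props; the parts prove them (or implications between them).
-/

set_option autoImplicit false

open Matrix

namespace Pool.Agent.W781.LW

/-- squared Frobenius norm -/
noncomputable def fro {n : ℕ} (A : Matrix (Fin n) (Fin n) ℂ) : ℝ := ∑ i, ∑ j, ‖A i j‖ ^ 2

/-- commutator -/
noncomputable def com {n : ℕ} (A B : Matrix (Fin n) (Fin n) ℂ) : Matrix (Fin n) (Fin n) ℂ :=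
  A * B - B * A

/-- `D_B = B B* + B* B` -/
noncomputable def DD {n : ℕ} (B : Matrix (Fin n) (Fin n) ℂ) : Matrix (Fin n) (Fin n) ℂ :=
  B * Bᴴ + Bᴴ * B

/-- real diagonal entries of `D_B` -/
noncomputable def dg {n : ℕ} (B : Matrix (Fin n) (Fin n) ℂ) (i : Fin n) : ℝ := (DD B i i).re

/-- the weight `(1 - 1/s)_+` -/
noncomputable def ww (s : ℝ) : ℝ := if 1 < s then 1 - 1 / s else 0

/-- scalar data: `d_i = 2 |a_i|^2 + r_i` -/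
noncomputable def sd {n : ℕ} (a : Fin n → ℂ) (r : Fin n → ℝ) (i : Fin n) : ℝ :=
  2 * ‖a i‖ ^ 2 + r i

/-- scalar data: `t_ij = |a_i - a_j|^2 + (r_i + r_j)/2` -/
noncomputable def st {n : ℕ} (a : Fin n → ℂ) (r : Fin n → ℝ) (i j : Fin n) : ℝ :=
  ‖a i - a j‖ ^ 2 + (r i + r j) / 2

/-- The scalar inequality. -/
def S_SCAL : Prop :=
  ∀ (n : ℕ) (p r : Fin n → ℝ) (a : Fin n → ℂ) (β : ℂ),
    (∀ i, 0 ≤ p i) → (∀ i, p i ≤ 1) → ∑ i, p i = 2 → ∑ i, (p i : ℂ) * a i = 0 →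
    (∀ i, 0 ≤ r i) → (∀ i, 2 * r i ≤ ∑ j, r j) →
    (∀ i j, p i < 1 → 0 < p j → sd a r i ≤ sd a r j) →
    ∑ i, (r i / 2 + ‖a i - β‖ ^ 2) = 1 →
    ∑ i, ∑ j, ww (sd a r i + sd a r j) * st a r i j ≤ 2

/-- The optimal shift: after a unitary conjugation, `B = X - α` has `D_B` diagonal, and there are
weights `0 ≤ p ≤ 1` of total 2 on the top of the spectrum of `D_B` with `∑ p_i B_ii = 0`. -/
def S_OPT : Prop :=
  ∀ (n : ℕ) (X : Matrix (Fin n) (Fin n) ℂ), 2 ≤ n →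
    ∃ (U B : Matrix (Fin n) (Fin n) ℂ) (α : ℂ) (p : Fin n → ℝ),
      Uᴴ * U = 1 ∧ U * Uᴴ = 1 ∧ B = Uᴴ * X * U - α • (1 : Matrix (Fin n) (Fin n) ℂ) ∧
      (∀ i, 0 ≤ p i) ∧ (∀ i, p i ≤ 1) ∧ ∑ i, p i = 2 ∧ ∑ i, (p i : ℂ) * B i i = 0 ∧
      (∀ i j, i ≠ j → DD B i j = 0) ∧
      (∀ i j, p i < 1 → 0 < p j → dg B i ≤ dg B j)

/-- Lemma A: the trace bound. -/
def S_LEMA : Prop :=
  ∀ (n m : ℕ) (B : Matrix (Fin n) (Fin n) ℂ) (Z : Fin m → Matrix (Fin n) (Fin n) ℂ) (M : ℝ),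
    0 ≤ M → (∀ i j, i ≠ j → DD B i j = 0) →
    (∀ a b, a ≠ b → trace (Z a * (Z b)ᴴ) = 0) → (∀ a, fro (Z a) ≤ M) →
    ∑ a, fro (com B (Z a)) ≤ (∑ a, fro (Z a)) +
      M * ∑ i, ∑ j, ww (dg B i + dg B j) * fro (com Bᴴ (Matrix.single i j (1 : ℂ)))

/-- The main theorem (orthogonal families). -/
def S_MAIN : Prop :=
  ∀ (n m : ℕ) (X : Matrix (Fin n) (Fin n) ℂ) (Z : Fin m → Matrix (Fin n) (Fin n) ℂ) (M : ℝ),
    0 ≤ M → (∀ a b, a ≠ b → trace (Z a * (Z b)ᴴ) = 0) → (∀ a, fro (Z a) ≤ M) →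
    ∑ a, fro (com X (Z a)) ≤ (2 * M + ∑ a, fro (Z a)) * fro X

/-- Isotropic orthonormal families. -/
def S_ISO : Prop :=
  ∀ (n m : ℕ) (X : Matrix (Fin n) (Fin n) ℂ) (Y : Fin m → Matrix (Fin n) (Fin n) ℂ),
    (∀ a b, trace (Y a * (Y b)ᴴ) = if a = b then 1 else 0) →
    (∀ a b, trace (Y a * com X (Y b)) = 0) →
    ∑ a, fro (com X (Y a)) ≤ ((m : ℝ) + 1) * fro X

/-- The fundamental conjecture of Lu and Wenzel (complex form). -/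
def S_FUND : Prop :=
  ∀ (n m : ℕ) (B : Matrix (Fin n) (Fin n) ℂ) (C : Fin m → Matrix (Fin n) (Fin n) ℂ) (M : ℝ),
    0 ≤ M → (∀ a b, a ≠ b → trace (C a * (C b)ᴴ) = 0) → (∀ a, fro (C a) ≤ M) →
    (∀ a b, trace (C a * com B (C b)) = 0) →
    ∑ a, fro (com B (C a)) ≤ (M + ∑ a, fro (C a)) * fro B

/-- frozen statement S06087 -/
def S_06087 : Prop :=
    ∀ (𝕜 : Type) [RCLike 𝕜] (n k : ℕ) (B : Matrix (Fin n) (Fin n) 𝕜)
      (C : Fin k → Matrix (Fin n) (Fin n) 𝕜),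
      (∀ a b : Fin k, a ≠ b → Matrix.trace (C a * (C b)ᴴ) = 0) →
      ∑ a : Fin k, (∑ i : Fin n, ∑ j : Fin n, ‖(B * C a - C a * B) i j‖ ^ 2) ≤
        (2 * (⨆ a : Fin k, ∑ i : Fin n, ∑ j : Fin n, ‖C a i j‖ ^ 2)
          + ∑ a : Fin k, ∑ i : Fin n, ∑ j : Fin n, ‖C a i j‖ ^ 2)
        * ∑ i : Fin n, ∑ j : Fin n, ‖B i j‖ ^ 2

/-- frozen statement S05813 -/
def S_05813 : Prop :=
  ∀ (𝕂 : Type) [RCLike 𝕂] (n : ℕ) (X : Matrix (Fin n) (Fin n) 𝕂),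
    (∑ i, ∑ j, ‖X i j‖ ^ 2 = 1) →
    ∀ (k m : ℕ), 1 ≤ k → m ≤ 2 * k →
    ∀ (Y : Fin m → Matrix (Fin n) (Fin n) 𝕂),
      (∀ a b : Fin m, ∑ i, ∑ j, star (Y a i j) * Y b i j = if a = b then (1 : 𝕂) else 0) →
      ∑ a, ∑ i, ∑ j, ‖(X * Y a - Y a * X) i j‖ ^ 2
        ≤ (if k < n then (2 * (k : ℝ) + 2) else 2 * (n : ℝ))

/-- frozen statement S05301 -/
def S_05301 : Prop :=
  ∀ (K : Type) [RCLike K] (n : ℕ) (X : Matrix (Fin n) (Fin n) K),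
    ∑ i, ∑ j, ‖X i j‖ ^ 2 = 1 →
    ∀ (hM : (Matrix.of (fun p q : Fin n × Fin n =>
        (Xᴴ * (X * Matrix.single q.1 q.2 (1:K) - Matrix.single q.1 q.2 (1:K) * X)
          - (X * Matrix.single q.1 q.2 (1:K) - Matrix.single q.1 q.2 (1:K) * X) * Xᴴ)
            p.1 p.2)).IsHermitian),
    ∀ k : ℕ, 1 ≤ k → k ≤ n ^ 2 / 2 →
    ∀ S : Finset (Fin n × Fin n), S.card = 2 * k →
      ∑ p ∈ S, hM.eigenvalues p ≤ 2 * (k : ℝ) + 2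

/-- frozen statement S04751 -/
def S_04751 : Prop :=
    ∀ (n m : ℕ) (B : Fin m → Matrix (Fin n) (Fin n) ℝ),
      (∀ α β γ : Fin m, Matrix.trace (B α * (B γ * B β - B β * B γ)) = 0) →
      (∑ α : Fin m, ∑ β : Fin m, ∑ i : Fin n, ∑ j : Fin n,
          ((B α * B β - B β * B α) i j) ^ 2)
        ≤ (∑ α : Fin m, ∑ i : Fin n, ∑ j : Fin n, (B α i j) ^ 2) ^ 2

end Pool.Agent.W781.LW
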