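import Mathlib
import Pool.Agent.W781.LW.Stm

/-! Tools for the scalar inequality. -/

set_option autoImplicit false

namespace Pool.Agent.W781.LW

lemma ww_nonneg (s : ℝ) : 0 ≤ ww s := by
  unfold ww
  split_ifs with h
  · have : 1 / s ≤ 1 := by rw [div_le_one (by linarith)]; linarith
    linarith
  · exact le_refl _

lemma ww_le_one (s : ℝ) : ww s ≤ 1 := by
  unfold ww
  split_ifs with h
  · have : 0 < 1 / s := by positivity
    linarith
  · norm_num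

lemma ww_of_le {s : ℝ} (h : s ≤ 1) : ww s = 0 := by
  unfold ww
  rw [if_neg (not_lt.mpr h)]

lemma ww_of_lt {s : ℝ} (h : 1 < s) : ww s = 1 - 1 / s := by
  unfold ww
  rw [if_pos h]

lemma ww_mono {s t : ℝ} (h : s ≤ t) : ww s ≤ ww t := by
  by_cases hs : 1 < s
  · rw [ww_of_lt hs, ww_of_lt (lt_of_lt_of_le hs h)]
    have : 1 / t ≤ 1 / s := one_div_le_one_div_of_le (by linarith) h
    linarith
  · rw [ww_of_le (not_lt.mp hs)]
    exact ww_nonneg t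

/-- splitting of a symmetric double sum -/
lemma split_sum {ι : Type*} (s : Finset ι) (p : ι → ℝ) (W : ι → ι → ℝ)
    (hW : ∀ i ∈ s, ∀ j ∈ s, W i j = W j i) :
    ∑ i ∈ s, ∑ j ∈ s, W i j =
      ∑ j ∈ s, p j * (∑ i ∈ s, p i * W i j) + 2 * ∑ j ∈ s, (1 - p j) * (∑ i ∈ s, p i * W i j)
        + ∑ i ∈ s, ∑ j ∈ s, (1 - p i) * (1 - p j) * W i j := by
  have e1 : ∑ i ∈ s, ∑ j ∈ s, p i * W i j = ∑ j ∈ s, ∑ i ∈ s, p i * W i j := Finset.sum_comm
  have e2 : ∑ i ∈ s, ∑ j ∈ s, p j * W i j = ∑ j ∈ s, ∑ i ∈ s, p i * W i j := by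
    apply Finset.sum_congr rfl
    intro i hi
    apply Finset.sum_congr rfl
    intro j hj
    rw [hW i hi j hj]
  have e3 : ∑ i ∈ s, ∑ j ∈ s, p i * p j * W i j = ∑ j ∈ s, p j * (∑ i ∈ s, p i * W i j) := by
    rw [Finset.sum_comm]
    apply Finset.sum_congr rfl
    intro j hj
    rw [Finset.mul_sum]
    apply Finset.sum_congr rfl
    intro i hi
    ring
  have e4 : ∑ i ∈ s, ∑ j ∈ s, (1 - p i) * (1 - p j) * W i j =
      ∑ i ∈ s, ∑ j ∈ s, W i j - ∑ i ∈ s, ∑ j ∈ s, p i * W i j - ∑ i ∈ s, ∑ j ∈ s, p j * W i j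
        + ∑ i ∈ s, ∑ j ∈ s, p i * p j * W i j := by
    simp only [← Finset.sum_sub_distrib, ← Finset.sum_add_distrib]
    apply Finset.sum_congr rfl
    intro i hi
    apply Finset.sum_congr rfl
    intro j hj
    ring
  have e5 : ∑ j ∈ s, (1 - p j) * (∑ i ∈ s, p i * W i j) =
      ∑ j ∈ s, ∑ i ∈ s, p i * W i j - ∑ j ∈ s, p j * (∑ i ∈ s, p i * W i j) := by
    simp only [← Finset.sum_sub_distrib]
    apply Finset.sum_congr rfl
    intro j hj
    ring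
  rw [e5, e4, e3, e2, e1]
  ring

/-- weighted Cauchy-Schwarz -/
lemma cs_sum {ι : Type*} (s : Finset ι) (q x : ι → ℝ) (hq : ∀ j ∈ s, 0 ≤ q j) :
    (∑ j ∈ s, q j * x j) ^ 2 ≤ (∑ j ∈ s, q j) * ∑ j ∈ s, q j * x j ^ 2 := by
  apply Finset.sum_sq_le_sum_mul_sum_of_sq_le_mul
  · exact hq
  · intro j hj
    exact mul_nonneg (hq j hj) (sq_nonneg _)
  · intro j hj
    apply le_of_eq
    ring

end Pool.Agent.W781.LW
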