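import Mathlib
import Pool.Agent.W781.LW.Main
import Pool.Agent.W591.LW.Eig

/-! `λ₁ + λ₃ ≤ 3` -/

set_option autoImplicit false

open Matrix

namespace Pool.Agent.W781.LW

open Pool.Agent.W591.LW

section
variable {n : ℕ}

/-- `⟨T_X Y, Z⟩ = ⟨[X, Y], [X, Z]⟩` -/
theorem TT_pair (X Y Z : Matrix (Fin n) (Fin n) ℂ) :
    trace (TT X Y * Zᴴ) = trace (com X Y * (com X Z)ᴴ) := by
  have hC : (com X Z)ᴴ = Zᴴ * Xᴴ - Xᴴ * Zᴴ := by
    rw [com, Matrix.conjTranspose_sub, Matrix.conjTranspose_mul, Matrix.conjTranspose_mul]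
  rw [TT, hC, com]
  generalize X * Y - Y * X = C
  rw [Matrix.sub_mul, Matrix.mul_sub, Matrix.trace_sub, Matrix.trace_sub, Matrix.mul_assoc Xᴴ,
    Matrix.trace_mul_comm Xᴴ, Matrix.mul_assoc, Matrix.mul_assoc]

theorem Mx_entry (X : Matrix (Fin n) (Fin n) ℂ) (p q : Fin n × Fin n) :
    Mx X p q = trace (com X (Matrix.single q.1 q.2 (1 : ℂ)) *
      (com X (Matrix.single p.1 p.2 (1 : ℂ)))ᴴ) := by
  rw [← TT_pair, trace_eq]
  show TT X (Matrix.single q.1 q.2 (1 : ℂ)) p.1 p.2 = _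
  rw [Finset.sum_eq_single p.1, Finset.sum_eq_single p.2]
  · simp
  · intro j _ hj
    rw [Matrix.single_apply, if_neg, star_zero, zero_mul]
    rintro ⟨-, h⟩
    exact hj h.symm
  · simp
  · intro i _ hi
    apply Finset.sum_eq_zero
    intro j _
    rw [Matrix.single_apply, if_neg, star_zero, zero_mul]
    rintro ⟨h, -⟩
    exact hi h.symm
  · simp

theorem Mx_herm (X : Matrix (Fin n) (Fin n) ℂ) : (Mx X).IsHermitian := by
  ext p q
  rw [Matrix.conjTranspose_apply, Mx_entry, Mx_entry, ← Matrix.trace_conjTranspose,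
    Matrix.conjTranspose_mul, Matrix.conjTranspose_conjTranspose]

/-- eigenvalue equation for the eigenvector matrices -/
theorem eig_eq (X : Matrix (Fin n) (Fin n) ℂ) (hM : (Mx X).IsHermitian) (p : Fin n × Fin n) :
    TT X (ymat (⇑(hM.eigenvectorBasis p))) =
      ((hM.eigenvalues p : ℝ) : ℂ) • ymat (⇑(hM.eigenvectorBasis p)) := by
  have h1 := hM.mulVec_eigenvectorBasis p
  ext i j
  have h3 := congrFun h1 (i, j)
  rw [mulVec_eq] at h3
  rw [h3, Pi.smul_apply, Matrix.smul_apply]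
  rfl

theorem TL_charpoly (X : Matrix (Fin n) (Fin n) ℂ) : (TL X).charpoly = (Mx X).charpoly := by
  rw [← LinearMap.charpoly_toMatrix (TL X) (Matrix.stdBasis ℂ (Fin n) (Fin n))]
  congr 1
  ext p q
  obtain ⟨i, j⟩ := p
  obtain ⟨k, l⟩ := q
  rw [LinearMap.toMatrix_apply, Matrix.stdBasis_eq_single]
  show _ = TT X (Matrix.single k l (1 : ℂ)) i j
  simp [Matrix.stdBasis, TL]

theorem exists_bc (g2 g3 : ℂ) : ∃ b c : ℂ, ‖b‖ ^ 2 + ‖c‖ ^ 2 = 1 ∧ b * g2 + c * g3 = 0 := by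
  by_cases h : ‖g2‖ ^ 2 + ‖g3‖ ^ 2 = 0
  · have h2 : ‖g2‖ ^ 2 = 0 := by nlinarith [sq_nonneg ‖g2‖, sq_nonneg ‖g3‖]
    have h3 : g2 = 0 := by
      rw [sq_eq_zero_iff, norm_eq_zero] at h2
      exact h2
    exact ⟨1, 0, by simp, by rw [h3]; ring⟩
  · have hpos : 0 < ‖g2‖ ^ 2 + ‖g3‖ ^ 2 := lt_of_le_of_ne (by positivity) (Ne.symm h)
    obtain ⟨s, hs⟩ : ∃ s : ℝ, s = Real.sqrt (‖g2‖ ^ 2 + ‖g3‖ ^ 2) := ⟨_, rfl⟩
    have hs0 : 0 < s := by rw [hs]; exact Real.sqrt_pos.mpr hpos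
    have hs2 : s ^ 2 = ‖g2‖ ^ 2 + ‖g3‖ ^ 2 := by rw [hs]; exact Real.sq_sqrt hpos.le
    refine ⟨g3 / (s : ℂ), -g2 / (s : ℂ), ?_, by ring⟩
    rw [norm_div, norm_div, norm_neg, Complex.norm_real, Real.norm_of_nonneg hs0.le, div_pow, div_pow,
      ← add_div, hs2, add_comm, div_self h]

theorem fro_eq_trace (A : Matrix (Fin n) (Fin n) ℂ) : trace (A * Aᴴ) = ((fro A : ℝ) : ℂ) := by
  rw [trace_eq]
  unfold fro
  push_cast
  refine Finset.sum_congr rfl fun i _ => Finset.sum_congr rfl fun j _ => ?_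
  rw [star_mul_self']
  push_cast
  rfl

theorem trace_com_swap (X Y Z : Matrix (Fin n) (Fin n) ℂ) :
    trace (Y * com X Z) = - trace (Z * com X Y) := by
  unfold com
  rw [Matrix.mul_sub, Matrix.mul_sub, Matrix.trace_sub, Matrix.trace_sub]
  have e1 : trace (Y * (X * Z)) = trace (Z * (Y * X)) := by
    rw [← Matrix.mul_assoc, Matrix.trace_mul_comm]
  have e2 : trace (Y * (Z * X)) = trace (Z * (X * Y)) := by
    rw [Matrix.trace_mul_comm Y, Matrix.mul_assoc]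
  rw [e1, e2]
  ring

theorem trace_self_com (X Y : Matrix (Fin n) (Fin n) ℂ) : trace (Y * com X Y) = 0 := by
  have h := trace_com_swap X Y Y
  have h2 : (2 : ℂ) * trace (Y * com X Y) = 0 := by linear_combination h
  simpa using h2

theorem three_eig (X : Matrix (Fin n) (Fin n) ℂ) (hX : fro X = 1) (hM : (Mx X).IsHermitian)
    (p1 p2 p3 : Fin n × Fin n) (h12 : p1 ≠ p2) (h13 : p1 ≠ p3) (h23 : p2 ≠ p3)
    (hle : hM.eigenvalues p3 ≤ hM.eigenvalues p2) :
    hM.eigenvalues p1 + hM.eigenvalues p3 ≤ 3 := by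
  obtain ⟨hnorm, hort⟩ := main_K X hM
  obtain ⟨Y1, hY1⟩ : ∃ Y, Y = ymat (⇑(hM.eigenvectorBasis p1)) := ⟨_, rfl⟩
  obtain ⟨Y2, hY2⟩ : ∃ Y, Y = ymat (⇑(hM.eigenvectorBasis p2)) := ⟨_, rfl⟩
  obtain ⟨Y3, hY3⟩ : ∃ Y, Y = ymat (⇑(hM.eigenvectorBasis p3)) := ⟨_, rfl⟩
  have t11 : trace (Y1 * Y1ᴴ) = 1 := by rw [hY1, hort, if_pos rfl]
  have t22 : trace (Y2 * Y2ᴴ) = 1 := by rw [hY2, hort, if_pos rfl]
  have t33 : trace (Y3 * Y3ᴴ) = 1 := by rw [hY3, hort, if_pos rfl]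
  have t12 : trace (Y1 * Y2ᴴ) = 0 := by rw [hY1, hY2, hort, if_neg h12]
  have t21 : trace (Y2 * Y1ᴴ) = 0 := by rw [hY1, hY2, hort, if_neg h12.symm]
  have t13 : trace (Y1 * Y3ᴴ) = 0 := by rw [hY1, hY3, hort, if_neg h13]
  have t31 : trace (Y3 * Y1ᴴ) = 0 := by rw [hY1, hY3, hort, if_neg h13.symm]
  have t23 : trace (Y2 * Y3ᴴ) = 0 := by rw [hY2, hY3, hort, if_neg h23]
  have t32 : trace (Y3 * Y2ᴴ) = 0 := by rw [hY2, hY3, hort, if_neg h23.symm]
  have q2 : TT X Y2 = ((hM.eigenvalues p2 : ℝ) : ℂ) • Y2 := by rw [hY2]; exact eig_eq X hM p2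
  have q3 : TT X Y3 = ((hM.eigenvalues p3 : ℝ) : ℂ) • Y3 := by rw [hY3]; exact eig_eq X hM p3
  obtain ⟨b, c, hbc, hbc0⟩ := exists_bc (trace (Y2 * com X Y1)) (trace (Y3 * com X Y1))
  obtain ⟨W, hW⟩ : ∃ W, W = b • Y2 + c • Y3 := ⟨_, rfl⟩
  have hWs : Wᴴ = star b • Y2ᴴ + star c • Y3ᴴ := by
    rw [hW, Matrix.conjTranspose_add, Matrix.conjTranspose_smul, Matrix.conjTranspose_smul]
  have hbb : b * star b = ((‖b‖ ^ 2 : ℝ) : ℂ) := by rw [mul_comm]; exact star_mul_self' b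
  have hcc : c * star c = ((‖c‖ ^ 2 : ℝ) : ℂ) := by rw [mul_comm]; exact star_mul_self' c
  have w1 : trace (W * Y1ᴴ) = 0 := by
    rw [hW, Matrix.add_mul, Matrix.trace_add, Matrix.smul_mul, Matrix.smul_mul, Matrix.trace_smul,
      Matrix.trace_smul, t21, t31]
    simp
  have w2 : trace (Y1 * Wᴴ) = 0 := by
    rw [hWs, Matrix.mul_add, Matrix.trace_add, Matrix.mul_smul, Matrix.mul_smul, Matrix.trace_smul,
      Matrix.trace_smul, t12, t13]
    simp
  have w3 : trace (W * Wᴴ) = 1 := by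
    have : trace (W * Wᴴ) = b * star b + c * star c := by
      rw [hWs, hW]
      simp only [Matrix.mul_add, Matrix.add_mul, Matrix.trace_add, Matrix.smul_mul, Matrix.mul_smul,
        Matrix.trace_smul, t22, t33, t23, t32, smul_eq_mul]
      ring
    rw [this, hbb, hcc, ← Complex.ofReal_add, hbc, Complex.ofReal_one]
  have w4 : trace (W * com X Y1) = 0 := by
    rw [hW, Matrix.add_mul, Matrix.trace_add, Matrix.smul_mul, Matrix.smul_mul, Matrix.trace_smul,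
      Matrix.trace_smul, smul_eq_mul, smul_eq_mul]
    exact hbc0
  have w5 : fro (com X W) = ‖b‖ ^ 2 * hM.eigenvalues p2 + ‖c‖ ^ 2 * hM.eigenvalues p3 := by
    have hTW : TT X W = b • TT X Y2 + c • TT X Y3 := by
      have h1 : TT X W = TL X W := rfl
      rw [h1, hW, map_add, map_smul, map_smul]
      rfl
    have h2 : trace (TT X W * Wᴴ) = b * star b * (hM.eigenvalues p2 : ℝ)
        + c * star c * (hM.eigenvalues p3 : ℝ) := by
      rw [hTW, q2, q3, hWs]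
      simp only [Matrix.mul_add, Matrix.add_mul, Matrix.trace_add, Matrix.smul_mul, Matrix.mul_smul,
        Matrix.trace_smul, t22, t33, t23, t32, smul_eq_mul]
      ring
    rw [TT_pair, fro_eq_trace, hbb, hcc] at h2
    exact_mod_cast h2
  have w6 : fro (com X Y1) = hM.eigenvalues p1 := by
    rw [hnorm p1, ← hY1]
    rfl
  have hiso := iso n 2 X ![Y1, W]
    (by
      intro a b
      fin_cases a <;> fin_cases b
      · simpa using t11
      · simpa using w2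
      · simpa using w1
      · simpa using w3)
    (by
      intro a b
      fin_cases a <;> fin_cases b
      · simpa using trace_self_com X Y1
      · have := trace_com_swap X Y1 W
        rw [w4, neg_zero] at this
        simpa using this
      · simpa using w4
      · simpa using trace_self_com X W)
  rw [Fin.sum_univ_two] at hiso
  simp only [Matrix.cons_val_zero, Matrix.cons_val_one] at hiso
  rw [w5, w6, hX] at hiso
  have h7 : hM.eigenvalues p3 ≤ ‖b‖ ^ 2 * hM.eigenvalues p2 + ‖c‖ ^ 2 * hM.eigenvalues p3 := by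
    have h8 := mul_le_mul_of_nonneg_left hle (sq_nonneg ‖b‖)
    have h9 : hM.eigenvalues p3 = (‖b‖ ^ 2 + ‖c‖ ^ 2) * hM.eigenvalues p3 := by rw [hbc, one_mul]
    linarith
  norm_num at hiso
  linarith

end

end Pool.Agent.W781.LW
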